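import Pool.Agent.Helper37.ETC.Defs

/-!
# ETC block F5: from `H¹` and `H²` to the universal property (helper30)

A family of subgroups of `G` which induces a bijection on the continuous characters with values in
`ZMod p` and such that locally constant `2`-cocycles that are coboundaries on all members are
coboundaries has the universal property of a free pro-`p` product. Induction over the order of the
finite `p`-group `P`, by central extensions of order `p`.
-/

set_option autoImplicit false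

namespace Pool.Helper37.ETC

namespace F5

theorem lc_of_open {G P : Type*} [Group G] [TopologicalSpace G] [IsTopologicalGroup G] [Group P]
    (ψ : G →* P) (h : IsOpen (ψ.ker : Set G)) : IsLocallyConstant ψ := by
  rw [IsLocallyConstant.iff_exists_open]
  intro x
  refine ⟨(fun y => x⁻¹ * y) ⁻¹' (ψ.ker : Set G), h.preimage (continuous_const_mul _), ?_, ?_⟩
  · simp
  · intro y hy
    have h1 : x⁻¹ * y ∈ ψ.ker := hy
    rw [MonoidHom.mem_ker, map_mul, map_inv, inv_mul_eq_one] at h1
    exact h1.symm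

theorem open_of_lc {G P : Type*} [Group G] [TopologicalSpace G] [Group P]
    (ψ : G →* P) (h : IsLocallyConstant ψ) : IsOpen (ψ.ker : Set G) := by
  have h1 := h {1}
  have e : (ψ.ker : Set G) = ψ ⁻¹' {1} := by
    ext x
    simp [MonoidHom.mem_ker]
  rw [e]
  exact h1

/-- the powers of a central element of order `p`. -/
theorem exists_exp {p : ℕ} [Fact p.Prime] {P : Type*} [Group P] {z : P} (hz : orderOf z = p)
    (hc : ∀ x : P, x * z = z * x) : ∃ e : ZMod p → P, (∀ a b, e (a + b) = e a * e b) ∧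
      Function.Injective e ∧ (∀ a x, e a * x = x * e a) ∧ ∀ x, x ∈ Subgroup.zpowers z ↔ ∃ a, e a = x := by
  have hp : 0 < p := (Fact.out : p.Prime).pos
  have : NeZero p := ⟨hp.ne'⟩
  refine ⟨fun a => z ^ a.val, ?_, ?_, ?_, ?_⟩
  · intro a b
    show z ^ (a + b).val = z ^ a.val * z ^ b.val
    have h := pow_mod_orderOf z (a.val + b.val)
    rw [hz] at h
    rw [← pow_add, ZMod.val_add]
    exact h
  · intro a b hab
    apply ZMod.val_injective p
    exact pow_injOn_Iio_orderOf (Set.mem_Iio.2 (by rw [hz]; exact ZMod.val_lt a))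
      (Set.mem_Iio.2 (by rw [hz]; exact ZMod.val_lt b)) hab
  · intro a x
    exact ((Commute.pow_right (show Commute x z from hc x) a.val).eq).symm
  · intro x
    constructor
    · intro hx
      obtain ⟨k, rfl⟩ := Subgroup.mem_zpowers_iff.1 hx
      refine ⟨(k : ZMod p), ?_⟩
      have h := zpow_mod_orderOf z k
      rw [hz] at h
      show z ^ (k : ZMod p).val = z ^ k
      rw [← zpow_natCast, ZMod.val_intCast]
      exact h
    · rintro ⟨a, rfl⟩
      exact Subgroup.pow_mem _ (Subgroup.mem_zpowers z) _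

/-- a nontrivial finite `p`-group has a central element of order `p`. -/
theorem exists_central {p : ℕ} [Fact p.Prime] {P : Type*} [Group P] [Finite P] {k : ℕ}
    (hk : Nat.card P = p ^ (k + 1)) : ∃ z : P, orderOf z = p ∧ ∀ x : P, x * z = z * x := by
  have hP : IsPGroup p P := IsPGroup.of_card hk
  have : Nontrivial P := by
    rw [← Finite.one_lt_card_iff_nontrivial, hk]
    exact Nat.one_lt_pow (Nat.succ_ne_zero k) (Fact.out : p.Prime).one_lt
  have : Nontrivial (Subgroup.center P) := hP.center_nontrivial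
  have hC : IsPGroup p (Subgroup.center P) := hP.to_subgroup _
  obtain ⟨m, hm⟩ := (IsPGroup.iff_card).1 hC
  have hm0 : m ≠ 0 := by
    rintro rfl
    have := Finite.one_lt_card_iff_nontrivial.2 (inferInstance : Nontrivial (Subgroup.center P))
    rw [hm, pow_zero] at this
    exact lt_irrefl _ this
  obtain ⟨z, hz⟩ := exists_prime_orderOf_dvd_card' (G := Subgroup.center P) p
    (by rw [hm]; exact dvd_pow_self p hm0)
  refine ⟨z, by rw [Subgroup.orderOf_coe]; exact hz, fun x => ?_⟩
  exact Subgroup.mem_center_iff.1 z.2 x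

end F5

section

variable {p : ℕ} [Fact p.Prime] {G : Type*} [Group G] [TopologicalSpace G]
  [IsTopologicalGroup G]

/-- extension data for a central subgroup of order `p`. -/
private theorem step {n : ℕ} (H : Fin n → Subgroup G)
    (h1 : ∀ χ : (i : Fin n) → (H i → ZMod p), (∀ i, IsCh p (χ i)) →
      ∃! ψ : G → ZMod p, IsCh p ψ ∧ ∀ i (x : H i), ψ x = χ i x)
    (h2 : ∀ c : G → G → ZMod p, IsCoc p c →
      (∀ i, IsCob p (fun σ τ : H i => c σ τ)) → IsCob p c)
    {P Q : Type} [Group P] [Group Q] (π : P →* Q) (hπ : Function.Surjective π)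
    (e : ZMod p → P) (he : ∀ a b, e (a + b) = e a * e b) (hinj : Function.Injective e)
    (hcom : ∀ a x, e a * x = x * e a) (hker : ∀ x, π x = 1 ↔ ∃ a, e a = x)
    (φ : (i : Fin n) → (H i →* P)) (hφ : ∀ i, IsOpen ((φ i).ker : Set (H i)))
    (hQ : ∃! ψ : G →* Q, IsOpen (ψ.ker : Set G) ∧ ∀ i, ∀ x : H i, ψ (x : G) = π (φ i x)) :
    ∃! ψ : G →* P, IsOpen (ψ.ker : Set G) ∧ ∀ i, ∀ x : H i, ψ (x : G) = φ i x := by
  classical
  have he0 : e 0 = 1 := by
    have := he 0 0
    rw [add_zero] at this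
    exact (mul_eq_left.1 this.symm)
  have heneg : ∀ a, e (-a) = (e a)⁻¹ := by
    intro a
    rw [eq_inv_iff_mul_eq_one, ← he, neg_add_cancel, he0]
  have hsub : ∀ a b, e (a - b) = e a * (e b)⁻¹ := by
    intro a b
    rw [sub_eq_add_neg, he, heneg]
  -- the difference of two lifts
  have hdiff : ∀ x y : P, π x = π y → ∃ a, x = e a * y := by
    intro x y hxy
    obtain ⟨a, ha⟩ := (hker (x * y⁻¹)).1 (by rw [map_mul, map_inv, hxy, mul_inv_cancel])
    exact ⟨a, by rw [ha, inv_mul_cancel_right]⟩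
  -- the logarithm of the difference, as a function of two variables
  let dl : P → P → ZMod p := fun x y => if h : π x = π y then (hdiff x y h).choose else 0
  have hdl : ∀ x y : P, π x = π y → x = e (dl x y) * y := by
    intro x y hxy
    have h3 := (hdiff x y hxy).choose_spec
    simp only [dl, dif_pos hxy]
    exact h3
  have hcan : ∀ a b (x : P), e a * x = e b * x → a = b := fun a b x h => hinj (mul_right_cancel h)
  have hpie : ∀ a, π (e a) = 1 := fun a => (hker _).2 ⟨a, rfl⟩
  obtain ⟨ψ', ⟨hψo, hψr⟩, hψu⟩ := hQ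
  have hψlc := F5.lc_of_open ψ' hψo
  -- the section
  let s : Q → P := Function.surjInv hπ
  have hs : ∀ q, π (s q) = q := Function.surjInv_eq hπ
  -- the cocycle
  let c : G → G → ZMod p := fun σ τ => dl (s (ψ' σ) * s (ψ' τ)) (s (ψ' σ * ψ' τ))
  have hc : ∀ σ τ, s (ψ' σ) * s (ψ' τ) = e (c σ τ) * s (ψ' (σ * τ)) := by
    intro σ τ
    rw [map_mul ψ']
    exact hdl _ _ (by rw [map_mul, hs, hs, hs])
  have hcoc : IsCoc p c := by
    constructor
    · intro ρ σ τ
      have h3 : s (ψ' ρ) * s (ψ' σ) * s (ψ' τ) = e (c σ τ + c ρ (σ * τ)) * s (ψ' (ρ * σ * τ)) := by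
        rw [mul_assoc (s (ψ' ρ)), hc σ τ, ← mul_assoc, ← hcom, mul_assoc, hc ρ (σ * τ),
          ← mul_assoc, ← he, mul_assoc ρ]
      have h4 : s (ψ' ρ) * s (ψ' σ) * s (ψ' τ) = e (c (ρ * σ) τ + c ρ σ) * s (ψ' (ρ * σ * τ)) := by
        rw [hc ρ σ, mul_assoc, hc (ρ * σ) τ, ← mul_assoc, ← he, add_comm]
      exact hcan _ _ _ (h3.symm.trans h4)
    · have h3 : IsLocallyConstant (fun q : G × G => (ψ' q.1, ψ' q.2)) :=
        (hψlc.comp_continuous continuous_fst).prodMk (hψlc.comp_continuous continuous_snd)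
      exact h3.comp (fun r : Q × Q => dl (s r.1 * s r.2) (s (r.1 * r.2)))
  -- on the subgroups it is a coboundary
  have hcob : ∀ i, IsCob p (fun σ τ : H i => c σ τ) := by
    intro i
    have hπφ : ∀ x : H i, π (s (ψ' x)) = π (φ i x) := fun x => by rw [hs, hψr]
    refine ⟨fun x => dl (s (ψ' x)) (φ i x), ?_, ?_⟩
    · have h3 : IsLocallyConstant (fun x : H i => (ψ' x, φ i x)) :=
        (hψlc.comp_continuous continuous_subtype_val).prodMk (F5.lc_of_open _ (hφ i))
      exact h3.comp (fun r : Q × P => dl (s r.1) r.2)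
    · intro x y
      have hx := hdl _ _ (hπφ x)
      have hy := hdl _ _ (hπφ y)
      have hxy := hdl _ _ (hπφ (x * y))
      have h3 := hc x y
      rw [show ((x : G) * (y : G)) = ((x * y : H i) : G) from rfl] at h3
      have h4 : e (c x y + dl (s (ψ' ((x * y : H i) : G))) (φ i (x * y))) * φ i (x * y) =
          e (dl (s (ψ' x)) (φ i x) + dl (s (ψ' y)) (φ i y)) * φ i (x * y) := by
        calc e (c x y + dl (s (ψ' ((x * y : H i) : G))) (φ i (x * y))) * φ i (x * y)
            = e (c x y) * (e (dl (s (ψ' ((x * y : H i) : G))) (φ i (x * y))) * φ i (x * y)) := by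
              rw [he, mul_assoc]
          _ = s (ψ' x) * s (ψ' y) := by rw [← hxy, h3]
          _ = (e (dl (s (ψ' x)) (φ i x)) * φ i x) * (e (dl (s (ψ' y)) (φ i y)) * φ i y) := by
              rw [← hx, ← hy]
          _ = e (dl (s (ψ' x)) (φ i x) + dl (s (ψ' y)) (φ i y)) * φ i (x * y) := by
              rw [he, map_mul (φ i), mul_assoc, mul_assoc, ← mul_assoc (φ i x), ← hcom,
                mul_assoc (e (dl (s (ψ' y)) (φ i y)))]
      show c x y = _
      rw [eq_sub_iff_add_eq]
      exact hcan _ _ _ h4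
  obtain ⟨f, hf, hfc⟩ := h2 c hcoc hcob
  -- a lift of `ψ'`
  let L : G →* P := MonoidHom.mk' (fun σ => e (-f σ) * s (ψ' σ)) (by
    intro σ τ
    have h3 : -f (σ * τ) = -f σ + (-f τ + c σ τ) := by rw [hfc σ τ]; ring
    show e (-f (σ * τ)) * s (ψ' (σ * τ)) = (e (-f σ) * s (ψ' σ)) * (e (-f τ) * s (ψ' τ))
    rw [h3, he, he, mul_assoc, mul_assoc, ← hc, mul_assoc (e (-f σ)), ← mul_assoc (s (ψ' σ)),
      ← hcom, mul_assoc (e (-f τ))])
  have hL : ∀ σ, L σ = e (-f σ) * s (ψ' σ) := fun σ => rfl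
  have hLπ : ∀ σ, π (L σ) = ψ' σ := fun σ => by rw [hL, map_mul, hpie, one_mul, hs]
  have hLlc : IsLocallyConstant L := by
    have h3 : IsLocallyConstant (fun σ : G => (f σ, ψ' σ)) := hf.prodMk hψlc
    exact h3.comp (fun r : ZMod p × Q => e (-r.1) * s r.2)
  -- the correction
  have hπφ : ∀ i (x : H i), π (φ i x) = π (L x) := fun i x => by rw [hLπ, hψr]
  obtain ⟨χ, ⟨hχ, hχr⟩, -⟩ := h1 (fun i x => dl (φ i x) (L x)) (by
    intro i
    constructor
    · intro x y
      have hx := hdl _ _ (hπφ i x)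
      have hy := hdl _ _ (hπφ i y)
      have hxy := hdl _ _ (hπφ i (x * y))
      have h3 : φ i (x * y) = e (dl (φ i x) (L x) + dl (φ i y) (L y)) * L ((x * y : H i) : G) := by
        conv_lhs => rw [map_mul, hx, hy]
        rw [show ((x * y : H i) : G) = (x : G) * (y : G) from rfl, map_mul, he, mul_assoc,
          ← mul_assoc (L x), ← hcom, mul_assoc, mul_assoc]
      exact hcan _ _ _ (hxy.symm.trans h3)
    · have h3 : IsLocallyConstant (fun x : H i => (φ i x, L x)) :=
        (F5.lc_of_open _ (hφ i)).prodMk (hLlc.comp_continuous continuous_subtype_val)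
      exact h3.comp (fun r : P × P => dl r.1 r.2))
  let ψ : G →* P := MonoidHom.mk' (fun σ => e (χ σ) * L σ) (by
    intro σ τ
    show e (χ (σ * τ)) * L (σ * τ) = (e (χ σ) * L σ) * (e (χ τ) * L τ)
    rw [hχ.1, he, map_mul, mul_assoc, mul_assoc, ← mul_assoc (L σ), ← hcom, mul_assoc (e (χ τ))])
  have hψ : ∀ σ, ψ σ = e (χ σ) * L σ := fun σ => rfl
  refine ⟨ψ, ⟨F5.open_of_lc ψ ?_, fun i x => ?_⟩, ?_⟩
  · have h3 : IsLocallyConstant (fun σ : G => (χ σ, L σ)) := hχ.2.prodMk hLlc
    exact h3.comp (fun r : ZMod p × P => e r.1 * r.2)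
  · rw [hψ, hχr i x]
    exact (hdl _ _ (hπφ i x)).symm
  · -- uniqueness
    rintro ψ₁ ⟨ho, hr⟩
    have hlc1 := F5.lc_of_open ψ₁ ho
    have h3 : π.comp ψ₁ = ψ' := hψu _ ⟨F5.open_of_lc _ (hlc1.comp π), fun i x => by
      show π (ψ₁ x) = _
      rw [hr]⟩
    have h4 : ∀ σ, π (ψ₁ σ) = π (L σ) := by
      intro σ
      rw [hLπ, ← h3]
      rfl
    have h5 : (fun σ => dl (ψ₁ σ) (L σ)) = χ := by
      refine (h1 (fun i x => dl (φ i x) (L x)) ?_).unique ⟨⟨?_, ?_⟩, ?_⟩ ⟨hχ, hχr⟩
      · intro i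
        have h6 : (fun x : H i => dl (φ i x) (L x)) = fun x : H i => χ x := by
          funext x
          exact (hχr i x).symm
        rw [h6]
        exact ⟨fun x y => hχ.1 x y, hχ.2.comp_continuous continuous_subtype_val⟩
      · intro σ τ
        have hx := hdl _ _ (h4 σ)
        have hy := hdl _ _ (h4 τ)
        have hxy := hdl _ _ (h4 (σ * τ))
        have h7 : ψ₁ (σ * τ) = e (dl (ψ₁ σ) (L σ) + dl (ψ₁ τ) (L τ)) * L (σ * τ) := by
          conv_lhs => rw [map_mul, hx, hy]
          rw [map_mul, he, mul_assoc, ← mul_assoc (L σ), ← hcom, mul_assoc, mul_assoc]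
        exact hcan _ _ _ (hxy.symm.trans h7)
      · exact (hlc1.prodMk hLlc).comp (fun r : P × P => dl r.1 r.2)
      · intro i x
        show dl (ψ₁ x) (L x) = dl (φ i x) (L x)
        rw [hr]
    ext σ
    rw [hψ, ← h5]
    exact hdl _ _ (h4 σ)

end

section

variable {p : ℕ} [Fact p.Prime] {G : Type*} [Group G] [TopologicalSpace G]
  [IsTopologicalGroup G] [CompactSpace G] [T2Space G] [TotallyDisconnectedSpace G]

omit [CompactSpace G] [T2Space G] [TotallyDisconnectedSpace G] in
private theorem univ_aux {n : ℕ} (H : Fin n → Subgroup G)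
    (h1 : ∀ χ : (i : Fin n) → (H i → ZMod p), (∀ i, IsCh p (χ i)) →
      ∃! ψ : G → ZMod p, IsCh p ψ ∧ ∀ i (x : H i), ψ x = χ i x)
    (h2 : ∀ c : G → G → ZMod p, IsCoc p c →
      (∀ i, IsCob p (fun σ τ : H i => c σ τ)) → IsCob p c) (k : ℕ) :
    ∀ (P : Type) [Group P] [Finite P], Nat.card P = p ^ k →
      ∀ φ : (i : Fin n) → (H i →* P), (∀ i, IsOpen ((φ i).ker : Set (H i))) →
      ∃! ψ : G →* P, IsOpen (ψ.ker : Set G) ∧ ∀ i, ∀ x : H i, ψ (x : G) = φ i x := by
  induction k with
  | zero =>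
    intro P _ _ hk φ hφ
    rw [pow_zero] at hk
    have : Subsingleton P := (Nat.card_eq_one_iff_unique.1 hk).1
    refine ⟨1, ⟨?_, fun i x => Subsingleton.elim _ _⟩, fun ψ _ => ?_⟩
    · rw [MonoidHom.ker_one]
      exact isOpen_univ
    · ext σ
      exact Subsingleton.elim _ _
  | succ k ih =>
    intro P _ _ hk φ hφ
    obtain ⟨z, hz, hzc⟩ := F5.exists_central hk
    obtain ⟨e, he, hinj, hcom, hmem⟩ := F5.exists_exp hz hzc
    have : (Subgroup.zpowers z).Normal := by
      constructor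
      intro x hx g
      obtain ⟨a, rfl⟩ := (hmem x).1 hx
      rw [← hcom, mul_inv_cancel_right]
      exact hx
    have hcard : Nat.card (P ⧸ Subgroup.zpowers z) = p ^ k := by
      have h3 := Subgroup.card_eq_card_quotient_mul_card_subgroup (Subgroup.zpowers z)
      rw [hk, Nat.card_zpowers, hz, pow_succ] at h3
      exact (Nat.eq_of_mul_eq_mul_right (Fact.out : p.Prime).pos h3).symm
    have hlc : ∀ i, IsLocallyConstant (φ i) := fun i => F5.lc_of_open _ (hφ i)
    refine step H h1 h2 (QuotientGroup.mk' (Subgroup.zpowers z)) (QuotientGroup.mk'_surjective _)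
      e he hinj hcom (fun x => ?_) φ hφ
      (ih (P ⧸ Subgroup.zpowers z) hcard
        (fun i => (QuotientGroup.mk' (Subgroup.zpowers z)).comp (φ i)) (fun i => ?_))
    · rw [← hmem, ← MonoidHom.mem_ker, QuotientGroup.ker_mk']
    · exact F5.open_of_lc _ ((hlc i).comp (QuotientGroup.mk' (Subgroup.zpowers z)))

/-- F5 (assembly) -/
theorem univ_of_h1_h2 {n : ℕ} (H : Fin n → Subgroup G)
    (h1 : ∀ χ : (i : Fin n) → (H i → ZMod p), (∀ i, IsCh p (χ i)) →
      ∃! ψ : G → ZMod p, IsCh p ψ ∧ ∀ i (x : H i), ψ x = χ i x)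
    (h2 : ∀ c : G → G → ZMod p, IsCoc p c →
      (∀ i, IsCob p (fun σ τ : H i => c σ τ)) → IsCob p c) : Univ p H := by
  intro P _ _ hk φ hφ
  obtain ⟨k, hk⟩ := hk
  exact univ_aux H h1 h2 k P hk φ hφ

end

end Pool.Helper37.ETC
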